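import Pool.Agent.Helper91.FS.Goals

/-!
# Project FS (MP_0130f7_co), packet EJR
-/

set_option autoImplicit false

namespace Pool.Agent.Helper64.FS

open Finset
open Pool.Agent.Helper47.SR (Grp mv lev wt Ew W IsInv up dn StarAt HalfStarAt)
open Pool.Agent.Helper49.NF
open Pool.Agent.Helper91.FS

variable {n : ℕ}

theorem inv_iff (γ : Equiv.Perm (Fin n)) (A : Finset (Fin n)) :
    mv γ A = A ↔ ∀ x, γ x ∈ A ↔ x ∈ A := by
  constructor
  · intro h x
    have h1 := Finset.mem_map' γ.toEmbedding (a := x) (s := A)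
    rw [← h1]
    show γ x ∈ A ↔ γ x ∈ mv γ A
    rw [h]
  · intro h
    ext y
    have h1 := Finset.mem_map' γ.toEmbedding (a := γ.symm y) (s := A)
    have h2 : γ.toEmbedding (γ.symm y) = y := by simp
    rw [h2] at h1
    show y ∈ A.map γ.toEmbedding ↔ y ∈ A
    rw [h1, ← h (γ.symm y), Equiv.apply_symm_apply]

theorem same_mem {γ : Equiv.Perm (Fin n)} {A : Finset (Fin n)} (h : ∀ x, γ x ∈ A ↔ x ∈ A)
    {x y : Fin n} (hx : x ∈ A) (hs : γ.SameCycle x y) : y ∈ A := by
  obtain ⟨i, rfl⟩ := hs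
  induction i with
  | zero => simpa using hx
  | succ i ih =>
    rw [add_comm, zpow_add, zpow_one, Equiv.Perm.mul_apply, h]
    exact ih
  | pred i ih =>
    rw [sub_eq_add_neg, add_comm, zpow_add, Equiv.Perm.mul_apply, zpow_neg_one, ← h]
    have h3 : ∀ z, γ (γ⁻¹ z) = z := fun z => Equiv.apply_symm_apply γ z
    rw [h3]
    exact ih

open Classical in
/-- the orbit of a point under the powers of `γ` -/
noncomputable def orb (γ : Equiv.Perm (Fin n)) (x : Fin n) : Finset (Fin n) :=
  univ.filter (fun y => γ.SameCycle x y)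

theorem mem_orb {γ : Equiv.Perm (Fin n)} {x y : Fin n} : y ∈ orb γ x ↔ γ.SameCycle x y := by
  simp [orb]

open Classical in
/-- the invariant sets with `j` elements -/
noncomputable def N (γ : Equiv.Perm (Fin n)) (j : ℕ) : Finset (Finset (Fin n)) :=
  (lev n j).filter (fun A => mv γ A = A)

theorem mem_N {γ : Equiv.Perm (Fin n)} {j : ℕ} {A : Finset (Fin n)} :
    A ∈ N γ j ↔ #A = j ∧ ∀ x, γ x ∈ A ↔ x ∈ A := by
  unfold N
  rw [mem_filter, mem_powersetCard, inv_iff]
  simp

open Classical in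
/-- the supports of cycles of length `j` -/
noncomputable def Cy (γ : Equiv.Perm (Fin n)) (j : ℕ) : Finset (Finset (Fin n)) :=
  (lev n j).filter (fun A => mv γ A = A ∧ ∀ x ∈ A, ∀ y ∈ A, γ.SameCycle x y)

theorem mem_Cy {γ : Equiv.Perm (Fin n)} {j : ℕ} {A : Finset (Fin n)} :
    A ∈ Cy γ j ↔ #A = j ∧ (∀ x, γ x ∈ A ↔ x ∈ A) ∧ ∀ x ∈ A, ∀ y ∈ A, γ.SameCycle x y := by
  unfold Cy
  rw [mem_filter, mem_powersetCard, inv_iff]
  simp

/-- the inequality for one permutation -/
theorem pt (γ : Equiv.Perm (Fin n)) (t f j : ℕ) (ht : 1 ≤ t) (hf : fx γ ≤ f) (_h1 : t + 1 ≤ j)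
    (h2 : 2 * t - 1 ≤ j) :
    #(N γ j) ≤ f * #(N γ (j - 1)) + n * ∑ k ∈ Ico t (j - 1), #(N γ k) + #(Cy γ j) := by
  classical
  set X1 : Finset (Finset (Fin n)) :=
    (((univ : Finset (Fin n)).filter (fun x => γ x = x)) ×ˢ N γ (j - 1)).image
      (fun p => insert p.1 p.2) with hX1
  set X2 : Finset (Finset (Fin n)) :=
    ((univ : Finset (Fin n)) ×ˢ ((Ico t (j - 1)).biUnion (N γ))).image
      (fun p => p.2 ∪ orb γ p.1) with hX2
  have hc1 : #X1 ≤ f * #(N γ (j - 1)) := by
    refine card_image_le.trans ?_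
    rw [card_product]
    refine Nat.mul_le_mul_right _ (le_trans (le_of_eq ?_) hf)
    unfold fx
    congr 1
  have hc2 : #X2 ≤ n * ∑ k ∈ Ico t (j - 1), #(N γ k) := by
    refine card_image_le.trans ?_
    rw [card_product, card_univ, Fintype.card_fin]
    exact Nat.mul_le_mul_left _ card_biUnion_le
  have hsub : N γ j ⊆ X1 ∪ X2 ∪ Cy γ j := by
    intro A hA
    obtain ⟨hAj, hAi⟩ := mem_N.1 hA
    rw [mem_union, mem_union]
    by_cases c1 : ∃ x ∈ A, γ x = x
    · -- a fixed point
      obtain ⟨x, hx, hfix⟩ := c1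
      refine Or.inl (Or.inl ?_)
      rw [hX1, mem_image]
      refine ⟨(x, A.erase x), ?_, insert_erase hx⟩
      rw [mem_product]
      refine ⟨by simpa using hfix, mem_N.2 ⟨by rw [card_erase_of_mem hx, hAj], fun y => ?_⟩⟩
      have h3 : γ y = x ↔ y = x := by
        constructor
        · intro h
          exact γ.injective (h.trans hfix.symm)
        · intro h
          rw [h, hfix]
      show γ y ∈ A.erase x ↔ y ∈ A.erase x
      rw [mem_erase, mem_erase, hAi, ne_eq, ne_eq, h3]
    · push Not at c1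
      -- the orbits are contained in A
      have horb : ∀ x ∈ A, orb γ x ⊆ A := fun x hx y hy => same_mem hAi hx (mem_orb.1 hy)
      by_cases c2 : ∃ x ∈ A, t ≤ #(A \ orb γ x)
      · obtain ⟨x, hx, hB⟩ := c2
        refine Or.inl (Or.inr ?_)
        rw [hX2, mem_image]
        refine ⟨(x, A \ orb γ x), ?_, sdiff_union_of_subset (horb x hx)⟩
        rw [mem_product]
        refine ⟨mem_univ _, ?_⟩
        rw [mem_biUnion]
        refine ⟨#(A \ orb γ x), ?_, mem_N.2 ⟨rfl, fun y => ?_⟩⟩
        · rw [mem_Ico]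
          refine ⟨hB, ?_⟩
          have h3 : 2 ≤ #(orb γ x) := by
            have h4 : ({x, γ x} : Finset (Fin n)) ⊆ orb γ x := by
              intro y hy
              rw [mem_insert, mem_singleton] at hy
              rw [mem_orb]
              rcases hy with rfl | rfl
              · exact Equiv.Perm.SameCycle.refl _ _
              · exact Equiv.Perm.sameCycle_apply_right.2 (Equiv.Perm.SameCycle.refl _ _)
            have h5 := card_le_card h4
            rwa [card_pair (fun h => c1 x hx h.symm)] at h5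
          have h4 := card_sdiff_add_card_eq_card (horb x hx)
          omega
        · rw [mem_sdiff, mem_sdiff, hAi, mem_orb, mem_orb, Equiv.Perm.sameCycle_apply_right]
      · push Not at c2
        refine Or.inr (mem_Cy.2 ⟨hAj, hAi, fun x hx y hy => ?_⟩)
        by_contra hns
        have hdis : Disjoint (orb γ x) (orb γ y) := by
          rw [disjoint_left]
          intro z hz hz'
          exact hns ((mem_orb.1 hz).trans (mem_orb.1 hz').symm)
        have h3 := card_le_card (union_subset (horb x hx) (horb y hy))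
        rw [card_union_of_disjoint hdis] at h3
        have h4 := card_sdiff_add_card_eq_card (horb x hx)
        have h5 := card_sdiff_add_card_eq_card (horb y hy)
        have h6 := c2 x hx
        have h7 := c2 y hy
        omega
  calc #(N γ j) ≤ #(X1 ∪ X2 ∪ Cy γ j) := card_le_card hsub
    _ ≤ #(X1 ∪ X2) + #(Cy γ j) := card_union_le _ _
    _ ≤ #X1 + #X2 + #(Cy γ j) := Nat.add_le_add_right (card_union_le _ _) _
    _ ≤ _ := Nat.add_le_add_right (Nat.add_le_add hc1 hc2) _

theorem cy_le (γ : Equiv.Perm (Fin n)) (j : ℕ) (hj : 1 ≤ j) : #(Cy γ j) ≤ n := by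
  classical
  have hsub : Cy γ j ⊆ (univ : Finset (Fin n)).image (orb γ) := by
    intro A hA
    obtain ⟨hAj, hAi, hAs⟩ := mem_Cy.1 hA
    have hne : A.Nonempty := by
      rw [← card_pos]; omega
    obtain ⟨x, hx⟩ := hne
    rw [mem_image]
    refine ⟨x, mem_univ _, ?_⟩
    ext y
    rw [mem_orb]
    exact ⟨fun h => same_mem hAi hx h, fun h => hAs x hx y h⟩
  refine (card_le_card hsub).trans (card_image_le.trans ?_)
  rw [card_univ, Fintype.card_fin]

open Classical in
theorem Ew_eq (G : Grp n) (j : ℕ) :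
    Ew G (lev n j) = ∑ γ ∈ (els G).filter (fun γ => γ ≠ 1), #(N γ j) := by
  have h1 : ∀ A, wt G A = #(((els G).filter (fun γ => γ ≠ 1)).filter (fun γ => mv γ A = A)) := by
    intro A
    unfold wt els
    congr 1
    ext γ
    simp [and_assoc]
  unfold Ew
  rw [sum_congr rfl (fun A _ => h1 A)]
  exact sum_card_bipartiteAbove_eq_sum_card_bipartiteBelow (fun A γ => mv γ A = A)

open Classical in
theorem cyc_eq (G : Grp n) (j : ℕ) :
    cyc G j = ∑ γ ∈ (els G).filter (fun γ => γ ≠ 1), #(Cy γ j) := by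
  unfold cyc Cy
  rfl

theorem goal_EJR : Goal_EJR := by
  intro t n L f G hG j h1 h2
  classical
  constructor
  · rw [Ew_eq, Ew_eq, cyc_eq, sum_congr rfl (fun k (_ : k ∈ Ico t (j - 1)) => Ew_eq G k), sum_comm,
      mul_sum, mul_sum, ← sum_add_distrib, ← sum_add_distrib]
    refine sum_le_sum fun γ hγ => ?_
    rw [mem_filter] at hγ
    have hγG : γ ∈ G := by
      have := hγ.1
      unfold els at this
      simpa using this
    exact pt γ t f j hG.t1 (hG.fix γ hγG hγ.2) h1 h2
  · rw [cyc_eq]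
    calc ∑ γ ∈ (els G).filter (fun γ => γ ≠ 1), #(Cy γ j)
        ≤ ∑ γ ∈ (els G).filter (fun γ => γ ≠ 1), n :=
          sum_le_sum fun γ _ => cy_le γ j (by omega)
      _ = #((els G).filter (fun γ => γ ≠ 1)) * n := by rw [sum_const, smul_eq_mul]
      _ ≤ #(els G) * n := Nat.mul_le_mul_right _ (card_filter_le _ _)
      _ = n * #(els G) := mul_comm _ _

end Pool.Agent.Helper64.FS
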